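import Pool.Agent.Q272.Cum.Seq

/-! Cumulants of the constructed lacunary sums. -/

namespace Q272.Cum

open MeasureTheory ProbabilityTheory Filter Topology

/-- The cosine. -/
noncomputable def cr (x : ℕ) : ℝ → ℝ := fun ω => Real.cos (2 * Real.pi * x * ω)

theorem cr_cont (x : ℕ) : Continuous (cr x) := by unfold cr; fun_prop

theorem cr_abs (x : ℕ) (ω : ℝ) : |cr x ω| ≤ 1 := Real.abs_cos_le_one _

theorem ofReal_int (f : ℝ → ℝ) :
    ∫ ω, ((f ω : ℝ) : ℂ) ∂μ = ((∫ ω, f ω ∂μ : ℝ) : ℂ) := integral_complex_ofReal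

theorem cc_cr (x : ℕ) (ω : ℝ) : cc x ω = ((cr x ω : ℝ) : ℂ) := rfl

theorem E_pow (x : ℤ) (l : ℕ) : E x ^ l = E (l * x) := by
  induction l with
  | zero => simp [E_zero]
  | succ l ih => rw [pow_succ, ih, E_mul]; congr 1; push_cast; ring

theorem int_cc_pow {x : ℕ} (hx : 0 < x) (n : ℕ) :
    ∫ ω, cc x ω ^ n ∂μ = if Even n then ((n.choose (n / 2) : ℕ) : ℂ) / 2 ^ n else 0 := by
  have h1 : (fun ω => cc x ω ^ n) = fun ω => ∑ l ∈ Finset.range (n + 1),
      ((1 / 2 : ℂ) ^ n * (n.choose l : ℂ)) * E ((2 * l - n) * x) ω := by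
    funext ω
    have h2 : cc x ω = (1 / 2 : ℂ) * (E x ω + E (-x) ω) := by
      rw [cc_eq]; rfl
    rw [h2, mul_pow, add_pow, Finset.mul_sum]
    refine Finset.sum_congr rfl fun l hl => ?_
    rw [Finset.mem_range] at hl
    have h3 : E x ω ^ l * E (-x) ω ^ (n - l) = E ((2 * l - n) * x) ω := by
      have h4 : (E x ^ l * E (-x) ^ (n - l)) ω = E ((2 * l - n) * x) ω := by
        rw [E_pow, E_pow, E_mul]
        congr 1
        rw [Nat.cast_sub (by omega)]
        ring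
      exact h4
    rw [h3]; ring
  rw [h1, integral_finsetSum _ fun l _ => (cont_int (E_cont _)).const_mul _]
  have h5 : ∀ l ∈ Finset.range (n + 1), ∫ ω, ((1 / 2 : ℂ) ^ n * (n.choose l : ℂ)) *
      E ((2 * l - n) * x) ω ∂μ = if 2 * l = n then (1 / 2 : ℂ) ^ n * (n.choose l : ℂ) else 0 := by
    intro l _
    rw [integral_const_mul, int_E]
    have h6 : (2 * (l : ℤ) - n) * x = 0 ↔ 2 * l = n := by
      rw [mul_eq_zero]
      constructor
      · rintro (h | h)
        · omega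
        · omega
      · intro h; left; omega
    by_cases h7 : 2 * l = n
    · rw [if_pos h7, if_pos (h6.2 h7), mul_one]
    · rw [if_neg h7, if_neg (fun h => h7 (h6.1 h)), mul_zero]
  rw [Finset.sum_congr rfl h5]
  split_ifs with hev
  · obtain ⟨j, hj⟩ := hev
    have hj2 : n = 2 * j := by omega
    subst hj2
    rw [Finset.sum_eq_single j]
    · rw [if_pos rfl, Nat.mul_div_cancel_left _ (by norm_num), one_div, inv_pow]
      ring
    · intro l _ hl
      rw [if_neg]; omega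
    · intro h
      exact absurd (Finset.mem_range.2 (by omega)) h
  · apply Finset.sum_eq_zero
    intro l _
    rw [if_neg]
    intro h
    exact hev ⟨l, by omega⟩

theorem int_cr_pow {x : ℕ} (hx : 0 < x) (n : ℕ) :
    ∫ ω, cr x ω ^ n ∂μ = if Even n then ((n.choose (n / 2) : ℕ) : ℝ) / 2 ^ n else 0 := by
  have h := int_cc_pow hx n
  simp only [cc_cr] at h
  have h1 : ∫ ω, ((cr x ω : ℝ) : ℂ) ^ n ∂μ = ((∫ ω, cr x ω ^ n ∂μ : ℝ) : ℂ) := by
    rw [← ofReal_int]
    congr 1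
    funext ω
    push_cast; rfl
  rw [h1] at h
  have h2 : (((if Even n then ((n.choose (n / 2) : ℕ) : ℝ) / 2 ^ n else 0 : ℝ)) : ℂ) =
      if Even n then ((n.choose (n / 2) : ℕ) : ℂ) / 2 ^ n else 0 := by
    split_ifs <;> push_cast <;> rfl
  rw [← h2] at h
  exact_mod_cast h

/-- The moment generating function of the arcsine law. -/
noncomputable def I0 (t : ℝ) : ℝ := ∑' j : ℕ, (t / 2) ^ (2 * j) / ((j.factorial : ℝ)) ^ 2

theorem mgf_cr {x : ℕ} (hx : 0 < x) (t : ℝ) : mgf (cr x) μ t = I0 t := by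
  have hint : ∀ n : ℕ, Integrable (fun ω => (t * cr x ω) ^ n / (n.factorial : ℝ)) μ := by
    intro n
    have hc : Continuous fun ω => (t * cr x ω) ^ n / (n.factorial : ℝ) :=
      ((continuous_const.mul (cr_cont x)).pow n).div_const _
    exact hc.integrableOn_Icc
  have hsum : Summable fun n : ℕ => ∫ ω, ‖(t * cr x ω) ^ n / (n.factorial : ℝ)‖ ∂μ := by
    refine Summable.of_nonneg_of_le (fun n => integral_nonneg fun ω => norm_nonneg _) (fun n => ?_)
      (Real.summable_pow_div_factorial |t|)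
    have h1 : ∀ ω, ‖(t * cr x ω) ^ n / (n.factorial : ℝ)‖ ≤ |t| ^ n / n.factorial := by
      intro ω
      rw [norm_div, norm_pow, Real.norm_eq_abs, abs_mul, Real.norm_natCast]
      have h2 := cr_abs x ω
      gcongr
      calc |t| * |cr x ω| ≤ |t| * 1 := by gcongr
        _ = |t| := mul_one _
    calc ∫ ω, ‖(t * cr x ω) ^ n / (n.factorial : ℝ)‖ ∂μ ≤ ∫ _ω, |t| ^ n / n.factorial ∂μ :=
          integral_mono (hint n).norm (integrable_const _) h1
      _ = |t| ^ n / n.factorial := by simp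
  have hs := hasSum_integral_of_summable_integral_norm hint hsum
  have h3 : ∫ ω, ∑' n : ℕ, (t * cr x ω) ^ n / (n.factorial : ℝ) ∂μ = mgf (cr x) μ t := by
    unfold mgf
    congr 1
    funext ω
    rw [Real.exp_eq_exp_ℝ, NormedSpace.exp_eq_tsum_div]
  rw [h3] at hs
  have h4 : ∀ n : ℕ, ∫ ω, (t * cr x ω) ^ n / (n.factorial : ℝ) ∂μ =
      t ^ n / n.factorial * if Even n then ((n.choose (n / 2) : ℕ) : ℝ) / 2 ^ n else 0 := by
    intro n
    rw [← int_cr_pow hx n, ← integral_const_mul]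
    congr 1
    funext ω
    rw [mul_pow]; ring
  simp_rw [h4] at hs
  have hinj : Function.Injective (fun j : ℕ => 2 * j) := fun a b h => by simpa using h
  rw [← hinj.hasSum_iff] at hs
  · rw [← hs.tsum_eq, I0]
    apply tsum_congr
    intro j
    simp only [Function.comp_apply]
    rw [if_pos (even_two_mul j), Nat.mul_div_cancel_left _ (by norm_num)]
    have h5 : (((2 * j).choose j : ℕ) : ℝ) * (j.factorial : ℝ) ^ 2 = (2 * j).factorial := by
      have := Nat.choose_mul_factorial_mul_factorial (n := 2 * j) (k := j) (by omega)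
      rw [show 2 * j - j = j by omega] at this
      have h6 : (((2 * j).choose j * j.factorial * j.factorial : ℕ) : ℝ) =
        (((2 * j).factorial : ℕ) : ℝ) := by rw [this]
      push_cast at h6
      rw [← h6]; ring
    have h7 : ((2 * j).factorial : ℝ) ≠ 0 := by positivity
    have h8 : (j.factorial : ℝ) ≠ 0 := by positivity
    rw [div_pow]
    rw [div_mul_div_comm, div_div, div_eq_div_iff (by positivity) (by positivity), ← h5]
    ring
  · intro n hn
    rw [if_neg, mul_zero]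
    rintro ⟨j, hj⟩
    exact hn ⟨j, by simp only; omega⟩

/-- The sum. -/
noncomputable def Sn {η : ℝ} (hη : 1 < η) (n : ℕ) : ℝ → ℝ :=
  fun ω => ∑ k ∈ Finset.range n, cr (b hη k) ω

theorem Sn_cont {η : ℝ} (hη : 1 < η) (n : ℕ) : Continuous (Sn hη n) := by
  unfold Sn
  exact continuous_finsetSum _ fun k _ => cr_cont _

theorem Sn_abs {η : ℝ} (hη : 1 < η) (n : ℕ) (ω : ℝ) : |Sn hη n ω| ≤ n := by
  unfold Sn
  refine (Finset.abs_sum_le_sum_abs _ _).trans ?_
  calc ∑ k ∈ Finset.range n, |cr (b hη k) ω| ≤ ∑ k ∈ Finset.range n, (1:ℝ) :=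
        Finset.sum_le_sum fun k _ => cr_abs _ _
    _ = n := by simp

theorem Sn_succ {η : ℝ} (hη : 1 < η) (n : ℕ) : Sn hη (n + 1) = Sn hη n + cr (b hη n) := by
  funext ω
  simp only [Sn, Pi.add_apply]
  rw [Finset.sum_range_succ]

theorem real_moments {η : ℝ} (hη : 1 < η) {m n : ℕ} (hA : Avoid m (Fs hη n) (b hη n)) {i j : ℕ}
    (hij : i + j ≤ m) : ∫ ω, Sn hη n ω ^ i * cr (b hη n) ω ^ j ∂μ =
      (∫ ω, Sn hη n ω ^ i ∂μ) * ∫ ω, cr (b hη n) ω ^ j ∂μ := by
  have hmem : (fun ω => ∑ k ∈ Finset.range n, cc (b hη k) ω) ∈ V (sgn (Fs hη n) : Set ℤ) :=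
    sum_mem _ _ fun k hk => mem_Fs hη (Finset.mem_range.1 hk)
  have h := moments hA hmem hij
  have h1 : ∀ ω, ∑ k ∈ Finset.range n, cc (b hη k) ω = ((Sn hη n ω : ℝ) : ℂ) := by
    intro ω
    simp only [cc_cr, Sn]
    push_cast; rfl
  simp only [h1] at h
  simp only [cc_cr] at h
  have e1 : ∫ ω, ((Sn hη n ω : ℝ) : ℂ) ^ i * ((cr (b hη n) ω : ℝ) : ℂ) ^ j ∂μ =
      ((∫ ω, Sn hη n ω ^ i * cr (b hη n) ω ^ j ∂μ : ℝ) : ℂ) := by
    rw [← ofReal_int]; congr 1; funext ω; push_cast; rfl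
  have e2 : ∫ ω, ((Sn hη n ω : ℝ) : ℂ) ^ i ∂μ = ((∫ ω, Sn hη n ω ^ i ∂μ : ℝ) : ℂ) := by
    rw [← ofReal_int]; congr 1; funext ω; push_cast; rfl
  have e3 : ∫ ω, ((cr (b hη n) ω : ℝ) : ℂ) ^ j ∂μ =
      ((∫ ω, cr (b hη n) ω ^ j ∂μ : ℝ) : ℂ) := by
    rw [← ofReal_int]; congr 1; funext ω; push_cast; rfl
  rw [e1, e2, e3] at h
  exact_mod_cast h

/-- The cumulants of the independent model (per summand). -/
noncomputable def kt (m : ℕ) : ℝ := iteratedDeriv m (fun t => Real.log (I0 t)) 0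

theorem cumulant_cr {x : ℕ} (hx : 0 < x) (m : ℕ) : iteratedDeriv m (cgf (cr x) μ) 0 = kt m := by
  unfold kt
  congr 1
  funext t
  rw [cgf, mgf_cr hx]

theorem cumulant_step {η : ℝ} (hη : 1 < η) {m n : ℕ} (hA : Avoid m (Fs hη n) (b hη n)) :
    iteratedDeriv m (cgf (Sn hη (n + 1)) μ) 0 = iteratedDeriv m (cgf (Sn hη n) μ) 0 + kt m := by
  rw [Sn_succ, cumulant_add (C := n) (D := 1) (Sn_cont hη n).aestronglyMeasurable
    (cr_cont _).aestronglyMeasurable (Sn_abs hη n) (cr_abs _)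
    (fun i j hij => real_moments hη hA hij), cumulant_cr (b_pos hη n)]

theorem cumulant_eventually {η : ℝ} (hη : 1 < η) (m : ℕ) : ∃ N : ℕ, ∃ C : ℝ, ∀ n, N ≤ n →
    iteratedDeriv m (cgf (Sn hη n) μ) 0 = n * kt m + C := by
  obtain ⟨N, hN⟩ := eventually_atTop.1 (eventually_avoid hη m)
  refine ⟨N, iteratedDeriv m (cgf (Sn hη N) μ) 0 - N * kt m, fun n hn => ?_⟩
  induction n, hn using Nat.le_induction with
  | base => ring
  | succ n hn ih =>
    rw [cumulant_step hη (hN n hn), ih]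
    push_cast; ring

end Q272.Cum
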