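import Mathlib

/-! Cumulants are additive when the mixed moments up to the given order factor. -/

namespace Q272.Cum

open MeasureTheory ProbabilityTheory Filter Topology

/-- If two analytic functions with value `1` at `0` agree to order `m`, so do their logarithms. -/
theorem log_agree {F G : ℝ → ℝ} (hF : AnalyticAt ℝ F 0) (hG : AnalyticAt ℝ G 0) (hF0 : F 0 = 1)
    (hG0 : G 0 = 1) {m : ℕ} (h : ∀ j, j ≤ m → iteratedDeriv j F 0 = iteratedDeriv j G 0) :
    iteratedDeriv m (fun t => Real.log (F t)) 0 = iteratedDeriv m (fun t => Real.log (G t)) 0 := by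
  have hu : ((m + 1 : ℕ) : ℕ∞) ≤ analyticOrderAt (F - G) 0 := by
    rw [natCast_le_analyticOrderAt_iff_iteratedDeriv_eq_zero (hF.sub hG)]
    intro i hi
    rw [iteratedDeriv_sub hF.contDiffAt hG.contDiffAt, h i (by omega), sub_self]
  have hGne : G 0 ≠ 0 := by rw [hG0]; exact one_ne_zero
  have hGinv : AnalyticAt ℝ (fun t => (G t)⁻¹) 0 := hG.inv hGne
  have hquot : AnalyticAt ℝ (fun t => F t * (G t)⁻¹) 0 := hF.mul hGinv
  have hv : ((m + 1 : ℕ) : ℕ∞) ≤ analyticOrderAt (fun t => F t * (G t)⁻¹ - F 0 * (G 0)⁻¹) 0 := by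
    have h1 : (fun t => F t * (G t)⁻¹ - F 0 * (G 0)⁻¹) =ᶠ[𝓝 0] (F - G) * (fun t => (G t)⁻¹) := by
      filter_upwards [hG.continuousAt.eventually_ne hGne] with t ht
      simp only [Pi.mul_apply, Pi.sub_apply, hF0, hG0]
      field_simp
    rw [analyticOrderAt_congr h1, analyticOrderAt_mul (hF.sub hG) hGinv]
    exact hu.trans le_self_add
  have hlog : AnalyticAt ℝ Real.log (F 0 * (G 0)⁻¹) := by
    rw [hF0, hG0, inv_one, mul_one]
    exact analyticAt_log one_pos
  have hcomp := AnalyticAt.analyticOrderAt_comp (f := Real.log)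
    (g := fun t => F t * (G t)⁻¹) (z₀ := 0) hlog hquot
  have hone : 1 ≤ analyticOrderAt Real.log (F 0 * (G 0)⁻¹) := by
    rw [Order.one_le_iff_pos, pos_iff_ne_zero, AnalyticAt.analyticOrderAt_ne_zero hlog, hF0, hG0]
    simp
  have hw : ((m + 1 : ℕ) : ℕ∞) ≤
      analyticOrderAt (Real.log ∘ fun t => F t * (G t)⁻¹) 0 := by
    rw [hcomp]
    calc ((m + 1 : ℕ) : ℕ∞) = 1 * ((m + 1 : ℕ) : ℕ∞) := (one_mul _).symm
      _ ≤ _ := mul_le_mul' hone hv
  have han : AnalyticAt ℝ (Real.log ∘ fun t => F t * (G t)⁻¹) 0 :=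
    AnalyticAt.comp (g := Real.log) (f := fun t => F t * (G t)⁻¹) (x := 0) hlog hquot
  rw [natCast_le_analyticOrderAt_iff_iteratedDeriv_eq_zero han] at hw
  have h2 := hw m (by omega)
  have hlF : AnalyticAt ℝ (fun t => Real.log (F t)) 0 :=
    hF.log (by rw [hF0]; exact one_pos)
  have hlG : AnalyticAt ℝ (fun t => Real.log (G t)) 0 :=
    hG.log (by rw [hG0]; exact one_pos)
  have h3 : (Real.log ∘ fun t => F t * (G t)⁻¹) =ᶠ[𝓝 0]
      ((fun t => Real.log (F t)) - fun t => Real.log (G t)) := by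
    filter_upwards [hG.continuousAt.eventually_ne hGne,
      hF.continuousAt.eventually_ne (by rw [hF0]; exact one_ne_zero)] with t ht1 ht2
    simp only [Function.comp_apply, Pi.sub_apply]
    rw [Real.log_mul ht2 (inv_ne_zero ht1), Real.log_inv]
    ring
  rw [h3.iteratedDeriv_eq, iteratedDeriv_sub hlF.contDiffAt hlG.contDiffAt] at h2
  linarith

variable {Ω : Type*} {mΩ : MeasurableSpace Ω} {μ : Measure Ω} [IsProbabilityMeasure μ]

theorem integrableExpSet_bdd {X : Ω → ℝ} (hX : AEStronglyMeasurable X μ) {C : ℝ}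
    (hC : ∀ ω, |X ω| ≤ C) : integrableExpSet X μ = Set.univ := by
  rw [Set.eq_univ_iff_forall]
  intro t
  show Integrable (fun ω => Real.exp (t * X ω)) μ
  refine Integrable.of_bound (C := Real.exp (|t| * C)) ?_ ?_
  · exact Real.continuous_exp.comp_aestronglyMeasurable (hX.const_mul t)
  · refine Eventually.of_forall fun ω => ?_
    rw [Real.norm_eq_abs, abs_of_pos (Real.exp_pos _)]
    apply Real.exp_le_exp.2
    calc t * X ω ≤ |t * X ω| := le_abs_self _
      _ = |t| * |X ω| := abs_mul _ _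
      _ ≤ |t| * C := by gcongr; exact hC ω

theorem integrable_pow_bdd {X Y : Ω → ℝ} (hX : AEStronglyMeasurable X μ)
    (hY : AEStronglyMeasurable Y μ) {C D : ℝ}
    (hC : ∀ ω, |X ω| ≤ C) (hD : ∀ ω, |Y ω| ≤ D) (i j : ℕ) :
    Integrable (fun ω => X ω ^ i * Y ω ^ j) μ := by
  refine Integrable.of_bound (C := C ^ i * D ^ j) ((hX.pow i).mul (hY.pow j)) ?_
  refine Eventually.of_forall fun ω => ?_
  rw [Real.norm_eq_abs, abs_mul, abs_pow, abs_pow]
  have hC0 : 0 ≤ C := (abs_nonneg _).trans (hC ω)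
  gcongr
  · exact hC ω
  · exact hD ω

/-- Additivity of the `m`-th cumulant. -/
theorem cumulant_add {X Y : Ω → ℝ} (hX : AEStronglyMeasurable X μ)
    (hY : AEStronglyMeasurable Y μ) {C D : ℝ} (hC : ∀ ω, |X ω| ≤ C) (hD : ∀ ω, |Y ω| ≤ D) {m : ℕ}
    (h : ∀ i j, i + j ≤ m → ∫ ω, X ω ^ i * Y ω ^ j ∂μ = (∫ ω, X ω ^ i ∂μ) * ∫ ω, Y ω ^ j ∂μ) :
    iteratedDeriv m (cgf (X + Y) μ) 0 = iteratedDeriv m (cgf X μ) 0 +
      iteratedDeriv m (cgf Y μ) 0 := by
  have hXY : AEStronglyMeasurable (X + Y) μ := hX.add hY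
  have hCD : ∀ ω, |(X + Y) ω| ≤ C + D := fun ω =>
    (abs_add_le _ _).trans (add_le_add (hC ω) (hD ω))
  have iX : (0:ℝ) ∈ interior (integrableExpSet X μ) := by
    rw [integrableExpSet_bdd hX hC, interior_univ]; trivial
  have iY : (0:ℝ) ∈ interior (integrableExpSet Y μ) := by
    rw [integrableExpSet_bdd hY hD, interior_univ]; trivial
  have iXY : (0:ℝ) ∈ interior (integrableExpSet (X + Y) μ) := by
    rw [integrableExpSet_bdd hXY hCD, interior_univ]; trivial
  have aX := analyticAt_mgf iX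
  have aY := analyticAt_mgf iY
  have aXY := analyticAt_mgf iXY
  have h1 : iteratedDeriv m (fun t => Real.log (mgf (X + Y) μ t)) 0 =
      iteratedDeriv m (fun t => Real.log ((mgf X μ * mgf Y μ) t)) 0 := by
    refine log_agree aXY (aX.mul aY) mgf_zero (by simp [mgf_zero]) ?_
    intro j hj
    rw [iteratedDeriv_mgf_zero iXY, iteratedDeriv_mul aX.contDiffAt aY.contDiffAt]
    have h2 : ∀ i ∈ Finset.range (j + 1), (j.choose i : ℝ) * iteratedDeriv i (mgf X μ) 0 *
        iteratedDeriv (j - i) (mgf Y μ) 0 = ∫ ω, X ω ^ i * Y ω ^ (j - i) * (j.choose i : ℝ) ∂μ := by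
      intro i hi
      rw [Finset.mem_range] at hi
      rw [iteratedDeriv_mgf_zero iX, iteratedDeriv_mgf_zero iY, integral_mul_const,
        h i (j - i) (by omega)]
      simp only [Pi.pow_apply]
      ring
    rw [Finset.sum_congr rfl h2, ← integral_finsetSum]
    · congr 1
      funext ω
      simp only [Pi.pow_apply, Pi.add_apply]
      exact add_pow _ _ _
    · intro i _
      exact (integrable_pow_bdd hX hY hC hD i (j - i)).mul_const _
  have hposX : ∀ t, 0 < mgf X μ t := fun t => by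
    apply mgf_pos
    have : t ∈ integrableExpSet X μ := by rw [integrableExpSet_bdd hX hC]; trivial
    exact this
  have hposY : ∀ t, 0 < mgf Y μ t := fun t => by
    apply mgf_pos
    have : t ∈ integrableExpSet Y μ := by rw [integrableExpSet_bdd hY hD]; trivial
    exact this
  have h3 : (fun t => Real.log ((mgf X μ * mgf Y μ) t)) = cgf X μ + cgf Y μ := by
    funext t
    simp only [Pi.mul_apply, Pi.add_apply, cgf]
    rw [Real.log_mul (hposX t).ne' (hposY t).ne']
  have h4 : cgf (X + Y) μ = fun t => Real.log (mgf (X + Y) μ t) := rfl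
  rw [h4, h1, h3, iteratedDeriv_add (analyticAt_cgf iX).contDiffAt (analyticAt_cgf iY).contDiffAt]

end Q272.Cum
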