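import Pool.Agent.Q272.Cum.Spec

/-! The greedy sequence with ratio limit `η` that avoids short relations. -/

namespace Q272.Cum

open Filter Topology

/-- The window of admissible next elements. -/
def Win (η : ℝ) (last n y : ℕ) : Prop :=
  η * last ≤ y ∧ (y : ℝ) ≤ η * last + η * last / (n + 1) + 1

theorem pick_exists {η : ℝ} (hη : 1 < η) (F : Finset ℕ) (last n : ℕ) :
    ∃ x : ℕ, Win η last n x ∧
      ∀ M, M ≤ n → (∃ y, Win η last n y ∧ Avoid M F y) → Avoid M F x := by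
  classical
  have h0 : ∃ y, Win η last n y ∧ Avoid 0 F y := by
    refine ⟨⌈η * last⌉₊, ⟨Nat.le_ceil _, ?_⟩, ?_⟩
    · have h1 : (⌈η * (last : ℝ)⌉₊ : ℝ) < η * last + 1 := Nat.ceil_lt_add_one (by positivity)
      have h2 : 0 ≤ η * (last : ℝ) / (n + 1) := by positivity
      linarith
    · intro r hr hr0
      exfalso
      apply hr
      have : |r| ≤ 0 := by exact_mod_cast hr0
      exact abs_nonpos_iff.1 this
  have hspec := Nat.findGreatest_spec (P := fun M => ∃ y, Win η last n y ∧ Avoid M F y)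
    (Nat.zero_le n) h0
  obtain ⟨x, hx1, hx2⟩ := hspec
  refine ⟨x, hx1, fun M hM hex => ?_⟩
  exact Avoid.mono (Nat.le_findGreatest hM hex) hx2

/-- The chosen next element. -/
noncomputable def pick (η : ℝ) (hη : 1 < η) (F : Finset ℕ) (last n : ℕ) : ℕ :=
  (pick_exists hη F last n).choose

/-- State: previous elements and the current element. -/
noncomputable def st (η : ℝ) (hη : 1 < η) : ℕ → Finset ℕ × ℕ
  | 0 => (∅, 1)
  | n + 1 => (insert (st η hη n).2 (st η hη n).1,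
      pick η hη (insert (st η hη n).2 (st η hη n).1) (st η hη n).2 n)

section

variable {η : ℝ} (hη : 1 < η)

/-- The sequence. -/
noncomputable def b (n : ℕ) : ℕ := (st η hη n).2

/-- The previous elements. -/
noncomputable def Fs (n : ℕ) : Finset ℕ := (st η hη n).1

theorem Fs_succ (n : ℕ) : Fs hη (n + 1) = insert (b hη n) (Fs hη n) := rfl

theorem b_succ (n : ℕ) : b hη (n + 1) = pick η hη (Fs hη (n + 1)) (b hη n) n := rfl

theorem b_zero : b hη 0 = 1 := rfl

theorem b_win (n : ℕ) : Win η (b hη n) n (b hη (n + 1)) := by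
  rw [b_succ]
  exact (pick_exists hη (Fs hη (n + 1)) (b hη n) n).choose_spec.1

theorem b_avoid (n : ℕ) {M : ℕ} (hM : M ≤ n)
    (h : ∃ y, Win η (b hη n) n y ∧ Avoid M (Fs hη (n + 1)) y) :
    Avoid M (Fs hη (n + 1)) (b hη (n + 1)) := by
  rw [b_succ]
  exact (pick_exists hη (Fs hη (n + 1)) (b hη n) n).choose_spec.2 M hM h

theorem b_ge (n : ℕ) : η ^ n ≤ b hη n := by
  induction n with
  | zero => simp [b_zero]
  | succ n ih =>
    have h := (b_win hη n).1
    rw [pow_succ]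
    nlinarith

theorem b_pos (n : ℕ) : 0 < b hη n := by
  have h := b_ge hη n
  have : (0:ℝ) < b hη n := lt_of_lt_of_le (by positivity) h
  exact_mod_cast this

theorem b_lt (n : ℕ) : b hη n < b hη (n + 1) := by
  have h := (b_win hη n).1
  have h0 : (0:ℝ) < b hη n := by exact_mod_cast b_pos hη n
  have : (b hη n : ℝ) < b hη (n + 1) := by nlinarith
  exact_mod_cast this

theorem mem_Fs {i n : ℕ} (h : i < n) : b hη i ∈ Fs hη n := by
  induction n with
  | zero => omega
  | succ n ih =>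
    rw [Fs_succ, Finset.mem_insert]
    rcases Nat.lt_succ_iff_lt_or_eq.1 h with h1 | h1
    · exact Or.inr (ih h1)
    · left; rw [h1]

theorem card_Fs (n : ℕ) : (Fs hη n).card ≤ n := by
  induction n with
  | zero => simp [Fs, st]
  | succ n ih =>
    rw [Fs_succ]
    exact (Finset.card_insert_le _ _).trans (by omega)

theorem b_tendsto : Tendsto (fun n => (b hη n : ℝ)) atTop atTop :=
  tendsto_atTop_mono (b_ge hη) (tendsto_pow_atTop_atTop_of_one_lt hη)

theorem ratio_tendsto : Tendsto (fun n => (b hη (n + 1) : ℝ) / b hη n) atTop (𝓝 η) := by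
  have h1 : Tendsto (fun n : ℕ => η + η * (1 / ((n : ℝ) + 1)) + ((b hη n : ℝ))⁻¹) atTop
      (𝓝 (η + η * 0 + 0)) :=
    (tendsto_const_nhds.add (tendsto_one_div_add_atTop_nhds_zero_nat.const_mul η)).add
      (tendsto_inv_atTop_zero.comp (b_tendsto hη))
  rw [mul_zero, add_zero, add_zero] at h1
  refine tendsto_of_tendsto_of_tendsto_of_le_of_le tendsto_const_nhds h1 ?_ ?_
  · intro n
    have h0 : (0:ℝ) < b hη n := by exact_mod_cast b_pos hη n
    show η ≤ (b hη (n + 1) : ℝ) / b hη n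
    rw [le_div_iff₀ h0]
    exact (b_win hη n).1
  · intro n
    have h0 : (0:ℝ) < b hη n := by exact_mod_cast b_pos hη n
    show (b hη (n + 1) : ℝ) / b hη n ≤ η + η * (1 / ((n : ℝ) + 1)) + ((b hη n : ℝ))⁻¹
    rw [div_le_iff₀ h0]
    refine (b_win hη n).2.trans (le_of_eq ?_)
    field_simp

/-- The bad set of level `M`. -/
noncomputable def Bad (M : ℕ) (F : Finset ℕ) : Finset ℕ :=
  ((Finset.Icc (-(M:ℤ)) M) ×ˢ Finset.range (M + 1)).biUnion
    (fun q => (P F q.2).image (fun s => (s / q.1).toNat))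

theorem card_Bad {M N : ℕ} {F : Finset ℕ} (hF : F.card ≤ N) (hN : 1 ≤ N) :
    (Bad M F).card ≤ (2 * M + 1) * (M + 1) * (2 * N) ^ M := by
  unfold Bad
  refine (Finset.card_biUnion_le_card_mul _ _ ((2 * N) ^ M) ?_).trans ?_
  · intro q hq
    rw [Finset.mem_product, Finset.mem_range] at hq
    refine Finset.card_image_le.trans ((card_P F q.2).trans ?_)
    calc (2 * F.card) ^ q.2 ≤ (2 * N) ^ q.2 := Nat.pow_le_pow_left (by omega) _
      _ ≤ (2 * N) ^ M := Nat.pow_le_pow_right (by omega) (by omega)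
  · rw [Finset.card_product, Finset.card_range, Int.card_Icc]
    apply Nat.mul_le_mul_right
    apply Nat.mul_le_mul_right
    omega

theorem avoid_of_not_bad {M : ℕ} {F : Finset ℕ} {y : ℕ} (h : y ∉ Bad M F) : Avoid M F y := by
  intro r hr hrM p hp hmem
  apply h
  unfold Bad
  rw [Finset.mem_biUnion]
  refine ⟨(r, p), ?_, ?_⟩
  · rw [Finset.mem_product, Finset.mem_Icc, Finset.mem_range]
    exact ⟨abs_le.1 hrM, by omega⟩
  · rw [Finset.mem_image]
    refine ⟨r * y, hmem, ?_⟩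
    simp only
    rw [Int.mul_ediv_cancel_left _ hr, Int.toNat_natCast]

theorem exists_avoid {M n : ℕ} {F : Finset ℕ} {last : ℕ} (hη : 1 < η) (hF : F.card ≤ n + 1)
    (h : (((2 * M + 1) * (M + 1) * (2 * (n + 1)) ^ M : ℕ) : ℝ) ≤ η * last / (n + 1)) :
    ∃ y, Win η last n y ∧ Avoid M F y := by
  set l := η * (last : ℝ) with hl
  set u := η * (last : ℝ) + η * last / (n + 1) + 1 with hu
  have hl0 : 0 ≤ l := by positivity
  have hu0 : 0 ≤ u := by positivity
  set W := Finset.Icc ⌈l⌉₊ ⌊u⌋₊ with hW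
  have hcard : (Bad M F).card < W.card := by
    have h1 := card_Bad (M := M) hF (by omega)
    have h2 : (((2 * M + 1) * (M + 1) * (2 * (n + 1)) ^ M : ℕ) : ℝ) < W.card := by
      refine lt_of_le_of_lt h ?_
      rw [hW, Nat.card_Icc]
      have h3 : (⌈l⌉₊ : ℝ) < l + 1 := Nat.ceil_lt_add_one hl0
      have h4 : u < (⌊u⌋₊ : ℝ) + 1 := Nat.lt_floor_add_one u
      have h5 : (⌊u⌋₊ : ℝ) + 1 - ⌈l⌉₊ ≤ ((⌊u⌋₊ + 1 - ⌈l⌉₊ : ℕ) : ℝ) := by
        rcases le_total ⌈l⌉₊ (⌊u⌋₊ + 1) with h6 | h6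
        · rw [Nat.cast_sub h6]; push_cast; exact le_rfl
        · have : ((⌊u⌋₊ + 1 : ℕ) : ℝ) ≤ ⌈l⌉₊ := by exact_mod_cast h6
          push_cast at this
          have h7 : (0:ℝ) ≤ ((⌊u⌋₊ + 1 - ⌈l⌉₊ : ℕ) : ℝ) := Nat.cast_nonneg _
          linarith
      linarith
    have h3 : (2 * M + 1) * (M + 1) * (2 * (n + 1)) ^ M < W.card := by exact_mod_cast h2
    omega
  obtain ⟨y, hyW, hyB⟩ := Finset.exists_mem_notMem_of_card_lt_card hcard
  rw [hW, Finset.mem_Icc] at hyW
  refine ⟨y, ⟨?_, ?_⟩, avoid_of_not_bad hyB⟩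
  · exact (Nat.le_ceil l).trans (by exact_mod_cast hyW.1)
  · have h8 : (y : ℝ) ≤ (⌊u⌋₊ : ℝ) := by exact_mod_cast hyW.2
    exact h8.trans (Nat.floor_le hu0)

/-- Eventually every level is avoided. -/
theorem eventually_avoid (M : ℕ) : ∀ᶠ n in atTop, Avoid M (Fs hη n) (b hη n) := by
  have h1 := tendsto_pow_const_div_const_pow_of_one_lt (M + 1) hη
  set C : ℝ := (2 * M + 1) * (M + 1) * 2 ^ M with hC
  have hCpos : 0 < C := by positivity
  have h2 : ∀ᶠ n : ℕ in atTop, (n : ℝ) ^ (M + 1) / η ^ n < 1 / C :=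
    h1.eventually_lt_const (by positivity)
  have h3 : ∀ᶠ n : ℕ in atTop, Avoid M (Fs hη (n + 1)) (b hη (n + 1)) := by
    filter_upwards [(tendsto_add_atTop_nat 1).eventually h2, eventually_ge_atTop M] with n hn hM
    apply b_avoid hη n hM
    apply exists_avoid hη (card_Fs hη (n + 1))
    have h4 : (0:ℝ) < n + 1 := by positivity
    rw [le_div_iff₀ h4]
    have h5 : η * η ^ n ≤ η * b hη n := by
      have := b_ge hη n
      gcongr
    refine le_trans ?_ h5
    rw [div_lt_div_iff₀ (by positivity) hCpos] at hn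
    push_cast at hn ⊢
    rw [pow_succ η n] at hn
    have h6 : (2 * (M:ℝ) + 1) * (M + 1) * (2 * ((n:ℝ) + 1)) ^ M * (n + 1) =
        ((n : ℝ) + 1) ^ (M + 1) * C := by
      rw [hC, mul_pow]; ring
    rw [h6]
    linarith
  rw [eventually_atTop] at h3 ⊢
  obtain ⟨N, hN⟩ := h3
  refine ⟨N + 1, fun n hn => ?_⟩
  obtain ⟨k, rfl⟩ : ∃ k, n = k + 1 := ⟨n - 1, by omega⟩
  exact hN k (by omega)

end

end Q272.Cum
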