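import Pool.Agent.Q272.Cum.LogDeriv

/-! Trigonometric polynomials with prescribed spectrum. -/

namespace Q272.Cum

open MeasureTheory ProbabilityTheory Filter Topology
open scoped Pointwise

/-- The uniform measure on `[0,1]`. -/
noncomputable abbrev μ : Measure ℝ := volume.restrict (Set.Icc (0:ℝ) 1)

instance : IsProbabilityMeasure μ := ⟨by simp⟩

/-- `E k ω = exp(2π i k ω)`. -/
noncomputable def E (k : ℤ) : ℝ → ℂ := fun ω => Complex.exp (2 * Real.pi * Complex.I * k * ω)

theorem E_mul (j k : ℤ) : E j * E k = E (j + k) := by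
  funext ω
  simp only [Pi.mul_apply, E]
  rw [← Complex.exp_add]
  congr 1
  push_cast; ring

theorem E_zero : E 0 = 1 := by
  funext ω; simp [E]

theorem E_cont (k : ℤ) : Continuous (E k) := by
  unfold E; fun_prop

theorem int_E (k : ℤ) : ∫ ω, E k ω ∂μ = if k = 0 then 1 else 0 := by
  rw [integral_Icc_eq_integral_Ioc, ← intervalIntegral.integral_of_le zero_le_one]
  split_ifs with hk
  · subst hk
    simp [E]
  · have hc : (2 * Real.pi * Complex.I * k : ℂ) ≠ 0 := by
      simp [Real.pi_ne_zero, hk]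
    have h := integral_exp_mul_complex (a := 0) (b := 1) hc
    simp only [E]
    rw [h]
    have h1 : Complex.exp (2 * Real.pi * Complex.I * k * ((1 : ℝ) : ℂ)) = 1 := by
      have : (2 * Real.pi * Complex.I * k * ((1 : ℝ) : ℂ)) = k * (2 * Real.pi * Complex.I) := by
        push_cast; ring
      rw [this, Complex.exp_int_mul_two_pi_mul_I]
    rw [h1]
    simp

/-- Trigonometric polynomials with spectrum in `A`. -/
noncomputable def V (A : Set ℤ) : Submodule ℂ (ℝ → ℂ) := Submodule.span ℂ (E '' A)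

theorem E_mem {A : Set ℤ} {k : ℤ} (hk : k ∈ A) : E k ∈ V A := Submodule.subset_span ⟨k, hk, rfl⟩

theorem V_mono {A B : Set ℤ} (h : A ⊆ B) : V A ≤ V B := Submodule.span_mono (Set.image_mono h)

theorem V_mul {A B : Set ℤ} {f g : ℝ → ℂ} (hf : f ∈ V A) (hg : g ∈ V B) : f * g ∈ V (A + B) := by
  have h1 : f * g ∈ V A * V B := Submodule.mul_mem_mul hf hg
  unfold V at h1
  rw [Submodule.span_mul_span] at h1
  refine Submodule.span_mono ?_ h1
  rintro _ ⟨_, ⟨a, ha, rfl⟩, _, ⟨b, hb, rfl⟩, rfl⟩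
  exact ⟨a + b, Set.add_mem_add ha hb, (E_mul a b).symm⟩

theorem V_prop {A : Set ℤ} {f : ℝ → ℂ} (hf : f ∈ V A) : Continuous f := by
  unfold V at hf
  induction hf using Submodule.span_induction with
  | mem x h => obtain ⟨k, _, rfl⟩ := h; exact E_cont k
  | zero => exact continuous_const
  | add x y _ _ hx hy => exact hx.add hy
  | smul a x _ hx => exact hx.const_smul a

theorem cont_int {f : ℝ → ℂ} (hf : Continuous f) : Integrable f μ :=
  hf.integrableOn_Icc

theorem V_int_zero {A : Set ℤ} {f : ℝ → ℂ} (hf : f ∈ V A) (h0 : (0:ℤ) ∉ A) :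
    ∫ ω, f ω ∂μ = 0 := by
  have key : Continuous f ∧ ∫ ω, f ω ∂μ = 0 := by
    unfold V at hf
    induction hf using Submodule.span_induction with
    | mem x h =>
      obtain ⟨k, hk, rfl⟩ := h
      refine ⟨E_cont k, ?_⟩
      rw [int_E, if_neg]
      rintro rfl
      exact h0 hk
    | zero => exact ⟨continuous_const, by simp⟩
    | add x y _ _ hx hy =>
      refine ⟨hx.1.add hy.1, ?_⟩
      simp only [Pi.add_apply]
      rw [integral_add (cont_int hx.1) (cont_int hy.1), hx.2, hy.2, add_zero]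
    | smul a x _ hx =>
      refine ⟨hx.1.const_smul a, ?_⟩
      simp only [Pi.smul_apply, smul_eq_mul]
      rw [integral_const_mul, hx.2, mul_zero]
  exact key.2

theorem V_sub {A : Set ℤ} {f : ℝ → ℂ} (hf : f ∈ V A) :
    f - (fun _ => ∫ ω, f ω ∂μ) ∈ V (A \ {0}) := by
  have key : Continuous f ∧ f - (fun _ => ∫ ω, f ω ∂μ) ∈ V (A \ {0}) := by
    have hf' := hf
    unfold V at hf
    induction hf using Submodule.span_induction with
    | mem x h =>
      obtain ⟨k, hk, rfl⟩ := h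
      refine ⟨E_cont k, ?_⟩
      rw [int_E]
      by_cases hk0 : k = 0
      · subst hk0
        rw [if_pos rfl, E_zero]
        have : (1 : ℝ → ℂ) - (fun _ => 1) = 0 := by funext ω; simp
        rw [this]
        exact Submodule.zero_mem _
      · rw [if_neg hk0]
        have : E k - (fun _ => (0:ℂ)) = E k := by funext ω; simp
        rw [this]
        exact E_mem ⟨hk, hk0⟩
    | zero =>
      refine ⟨continuous_const, ?_⟩
      have : (0 : ℝ → ℂ) - (fun _ => ∫ ω, (0 : ℝ → ℂ) ω ∂μ) = 0 := by funext ω; simp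
      rw [this]
      exact Submodule.zero_mem _
    | add x y hx' hy' hx hy =>
      obtain ⟨hx1, hx2⟩ := hx hx'
      obtain ⟨hy1, hy2⟩ := hy hy'
      refine ⟨hx1.add hy1, ?_⟩
      have : (x + y) - (fun _ => ∫ ω, (x + y) ω ∂μ) =
          (x - (fun _ => ∫ ω, x ω ∂μ)) + (y - (fun _ => ∫ ω, y ω ∂μ)) := by
        funext ω
        simp only [Pi.add_apply, Pi.sub_apply]
        rw [integral_add (cont_int hx1) (cont_int hy1)]
        ring
      rw [this]
      exact Submodule.add_mem _ hx2 hy2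
    | smul a x hx' hx =>
      obtain ⟨hx1, hx2⟩ := hx hx'
      refine ⟨hx1.const_smul a, ?_⟩
      have : (a • x) - (fun _ => ∫ ω, (a • x) ω ∂μ) = a • (x - (fun _ => ∫ ω, x ω ∂μ)) := by
        funext ω
        simp only [Pi.smul_apply, Pi.sub_apply, smul_eq_mul]
        rw [integral_const_mul]
        ring
      rw [this]
      exact Submodule.smul_mem _ _ hx2
  exact key.2

/-- Key factorization of integrals. -/
theorem factor {A B : Set ℤ} {f g : ℝ → ℂ} (hf : f ∈ V A) (hg : g ∈ V B)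
    (h : ∀ a ∈ A, ∀ b ∈ B, b ≠ 0 → a + b ≠ 0) :
    ∫ ω, f ω * g ω ∂μ = (∫ ω, f ω ∂μ) * ∫ ω, g ω ∂μ := by
  have h1 := V_mul hf (V_sub hg)
  have h2 := V_int_zero h1 (by
    rintro ⟨a, ha, b, hb, hab⟩
    exact h a ha b hb.1 hb.2 hab)
  simp only [Pi.mul_apply, Pi.sub_apply, mul_sub] at h2
  have i1 : Integrable (fun ω => f ω * g ω) μ := cont_int ((V_prop hf).mul (V_prop hg))
  have i2 : Integrable (fun ω => f ω * ∫ ω, g ω ∂μ) μ := (cont_int (V_prop hf)).mul_const _
  rw [integral_sub i1 i2, integral_mul_const] at h2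
  exact sub_eq_zero.1 h2

/-- Signed elements. -/
def sgn (F : Finset ℕ) : Finset ℤ := F.image (fun x : ℕ => (x : ℤ)) ∪ F.image (fun x : ℕ => -(x : ℤ))

/-- Signed sums of exactly `p` elements. -/
def P (F : Finset ℕ) : ℕ → Finset ℤ
  | 0 => {0}
  | p + 1 => P F p + sgn F

theorem card_sgn (F : Finset ℕ) : (sgn F).card ≤ 2 * F.card := by
  unfold sgn
  refine (Finset.card_union_le _ _).trans ?_
  have h1 := Finset.card_image_le (s := F) (f := fun x : ℕ => (x : ℤ))
  have h2 := Finset.card_image_le (s := F) (f := fun x : ℕ => -(x : ℤ))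
  omega

theorem card_P (F : Finset ℕ) (p : ℕ) : (P F p).card ≤ (2 * F.card) ^ p := by
  induction p with
  | zero => simp [P]
  | succ p ih =>
    rw [P, pow_succ]
    exact (Finset.card_add_le).trans (Nat.mul_le_mul ih (card_sgn F))

/-- The cosine with frequency `x` as a complex function. -/
noncomputable def cc (x : ℕ) : ℝ → ℂ := fun ω => ((Real.cos (2 * Real.pi * x * ω) : ℝ) : ℂ)

theorem cc_eq (x : ℕ) : cc x = (1 / 2 : ℂ) • (E x + E (-x)) := by
  funext ω
  simp only [cc, Pi.smul_apply, Pi.add_apply, E, smul_eq_mul]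
  rw [Complex.ofReal_cos, Complex.cos]
  push_cast
  have h1 : (2 * Real.pi * x * ω : ℂ) * Complex.I = 2 * Real.pi * Complex.I * x * ω := by ring
  have h2 : -(2 * Real.pi * x * ω : ℂ) * Complex.I = 2 * Real.pi * Complex.I * -x * ω := by ring
  rw [h1, h2]
  ring

theorem cc_mem {F : Finset ℕ} {x : ℕ} (hx : x ∈ F) : cc x ∈ V (sgn F : Set ℤ) := by
  rw [cc_eq]
  apply Submodule.smul_mem
  apply Submodule.add_mem
  · apply E_mem
    simp only [sgn, Finset.coe_union, Finset.coe_image, Set.mem_union, Set.mem_image]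
    exact Or.inl ⟨x, hx, rfl⟩
  · apply E_mem
    simp only [sgn, Finset.coe_union, Finset.coe_image, Set.mem_union, Set.mem_image]
    exact Or.inr ⟨x, hx, rfl⟩

theorem sum_mem {ι : Type*} {F : Finset ℕ} (s : Finset ι) (f : ι → ℕ) (hx : ∀ i ∈ s, f i ∈ F) :
    (fun ω => ∑ i ∈ s, cc (f i) ω) ∈ V (sgn F : Set ℤ) := by
  have : (fun ω => ∑ i ∈ s, cc (f i) ω) = ∑ i ∈ s, cc (f i) := by
    funext ω; simp
  rw [this]
  exact Submodule.sum_mem _ fun i hi => cc_mem (hx i hi)

theorem pow_mem {F : Finset ℕ} {f : ℝ → ℂ} (hf : f ∈ V (sgn F : Set ℤ)) (p : ℕ) :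
    f ^ p ∈ V (P F p : Set ℤ) := by
  induction p with
  | zero =>
    rw [pow_zero, ← E_zero]
    apply E_mem
    simp [P]
  | succ p ih =>
    rw [pow_succ, P, Finset.coe_add]
    exact V_mul ih hf

theorem cc_pow_mem (x l : ℕ) : cc x ^ l ∈ V {k : ℤ | ∃ r : ℤ, |r| ≤ l ∧ k = r * x} := by
  induction l with
  | zero =>
    rw [pow_zero, ← E_zero]
    apply E_mem
    exact ⟨0, by simp, by simp⟩
  | succ l ih =>
    rw [pow_succ]
    have h1 : cc x ∈ V ({(x : ℤ), -(x : ℤ)} : Set ℤ) := by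
      rw [cc_eq]
      apply Submodule.smul_mem
      apply Submodule.add_mem
      · apply E_mem; simp
      · apply E_mem; simp
    refine V_mono ?_ (V_mul ih h1)
    rintro _ ⟨_, ⟨r, hr, rfl⟩, b, hb, rfl⟩
    simp only [Set.mem_insert_iff, Set.mem_singleton_iff] at hb
    rcases hb with rfl | rfl
    · refine ⟨r + 1, ?_, by simp only; ring⟩
      push_cast
      exact (abs_add_le _ _).trans (by simpa using hr)
    · refine ⟨r - 1, ?_, by simp only; ring⟩
      push_cast
      exact (abs_sub _ _).trans (by simpa using hr)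

/-- The avoidance condition of level `M`. -/
def Avoid (M : ℕ) (F : Finset ℕ) (x : ℕ) : Prop :=
  ∀ r : ℤ, r ≠ 0 → |r| ≤ M → ∀ p, p ≤ M → r * x ∉ P F p

theorem Avoid.mono {M M' : ℕ} (h : M ≤ M') {F : Finset ℕ} {x : ℕ} (hA : Avoid M' F x) :
    Avoid M F x := by
  intro r hr hrM p hp
  exact hA r hr (hrM.trans (by exact_mod_cast h)) p (hp.trans h)

/-- Factorization of the mixed moments. -/
theorem moments {M : ℕ} {F : Finset ℕ} {x : ℕ} (hA : Avoid M F x) {f : ℝ → ℂ}
    (hf : f ∈ V (sgn F : Set ℤ)) {i j : ℕ} (hij : i + j ≤ M) :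
    ∫ ω, f ω ^ i * cc x ω ^ j ∂μ = (∫ ω, f ω ^ i ∂μ) * ∫ ω, cc x ω ^ j ∂μ := by
  refine factor (pow_mem hf i) (cc_pow_mem x j) ?_
  rintro a ha _ ⟨r, hr, rfl⟩ hne hsum
  have hr0 : r ≠ 0 := by
    rintro rfl
    simp at hne
  have h1 : a = (-r) * x := by linarith
  rw [h1] at ha
  refine hA (-r) (neg_ne_zero.2 hr0) ?_ i (by omega) (by exact_mod_cast ha)
  rw [abs_neg]
  exact hr.trans (by exact_mod_cast (by omega : j ≤ M))

end Q272.Cum
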